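import Mathlib
import Pool.Agent.Y875.UE.Stm

/-!
# The logarithmic derivative in the group ring
-/

set_option autoImplicit false

namespace Pool.Agent.Y657.UE

open Finset Pool.Agent.Y875.UE

section

variable {R : Type} [CommRing R] {N : ℕ} [NeZero N]

lemma DD_add (f g : GR R N) : DD (f + g) = DD f + DD g := by
  unfold DD
  rw [← Finset.sum_add_distrib]
  refine Finset.sum_congr rfl fun A _ => ?_
  rw [AddMonoidAlgebra.coeff_add, Finsupp.add_apply, mul_add]
  exact AddMonoidAlgebra.single_add _ _ _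

lemma DD_zero : DD (0 : GR R N) = 0 := by simp [DD]

lemma DD_sgl (A : ZMod N) (r : R) :
    DD (sgl A r : GR R N) = sgl A ((A.val : R) * r) := by
  unfold DD
  rw [Finset.sum_eq_single A]
  · rw [AddMonoidAlgebra.coeff_single, Finsupp.single_eq_same]
  · intro B _ hB
    rw [AddMonoidAlgebra.coeff_single, Finsupp.single_eq_of_ne hB, mul_zero]
    exact AddMonoidAlgebra.single_zero _
  · intro h
    exact absurd (Finset.mem_univ A) h

lemma cast_mul_sgl (n : ℕ) (A : ZMod N) (r : R) :
    (n : GR R N) * sgl A r = sgl A ((n : R) * r) := by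
  rw [← nsmul_eq_mul, AddMonoidAlgebra.smul_single, nsmul_eq_mul]

lemma DD_sum {ι : Type} (s : Finset ι) (f : ι → GR R N) :
    DD (∑ i ∈ s, f i) = ∑ i ∈ s, DD (f i) := by
  classical
  induction s using Finset.induction_on with
  | empty => simp [DD_zero]
  | insert a s ha ih => rw [Finset.sum_insert ha, Finset.sum_insert ha, DD_add, ih]

lemma sgl_mul_sgl (A B : ZMod N) (r s : R) :
    (sgl A r : GR R N) * sgl B s = sgl (A + B) (r * s) :=
  AddMonoidAlgebra.single_mul_single _ _ _ _

lemma DD_const (c : R) (f : GR R N) : DD (sgl 0 c * f) = sgl 0 c * DD f := by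
  induction f using AddMonoidAlgebra.induction_linear with
  | zero => rw [mul_zero, DD_zero, mul_zero]
  | add x y hx hy => rw [mul_add, DD_add, hx, hy, DD_add, mul_add]
  | single A r =>
    have h1 : (sgl 0 c : GR R N) * sgl A r = sgl A (c * r) := by
      rw [sgl_mul_sgl, zero_add]
    have h2 : (sgl 0 c : GR R N) * sgl A ((A.val : R) * r) = sgl A (c * ((A.val : R) * r)) := by
      rw [sgl_mul_sgl, zero_add]
    show DD ((sgl 0 c : GR R N) * sgl A r) = sgl 0 c * DD (sgl A r)
    rw [h1, DD_sgl, DD_sgl, h2]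
    congr 1
    ring

end

section

variable {R : Type} [CommRing R] {k : ℕ}

/-- the Leibniz rule -/
lemma leib (f g : GR R (2 ^ k)) :
    (2 ^ k : GR R (2 ^ k)) ∣ DD (f * g) - (DD f * g + f * DD g) := by
  induction f using AddMonoidAlgebra.induction_linear with
  | zero => simp [DD_zero]
  | add x y hx hy =>
    have h := dvd_add hx hy
    have e : DD ((x + y) * g) - (DD (x + y) * g + (x + y) * DD g) =
        DD (x * g) - (DD x * g + x * DD g) + (DD (y * g) - (DD y * g + y * DD g)) := by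
      rw [add_mul, DD_add, DD_add]
      ring
    rw [e]
    exact h
  | single A r =>
    induction g using AddMonoidAlgebra.induction_linear with
    | zero => simp [DD_zero]
    | add x y hx hy =>
      have h := dvd_add hx hy
      have e : DD (AddMonoidAlgebra.single A r * (x + y)) - (DD (AddMonoidAlgebra.single A r) *
          (x + y) + AddMonoidAlgebra.single A r * DD (x + y)) =
          DD (AddMonoidAlgebra.single A r * x) - (DD (AddMonoidAlgebra.single A r) * x +
            AddMonoidAlgebra.single A r * DD x) + (DD (AddMonoidAlgebra.single A r * y) -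
            (DD (AddMonoidAlgebra.single A r) * y + AddMonoidAlgebra.single A r * DD y)) := by
        rw [mul_add, DD_add, DD_add]
        ring
      rw [e]
      exact h
    | single B s =>
      show (2 ^ k : GR R (2 ^ k)) ∣ DD ((sgl A r : GR R (2 ^ k)) * sgl B s) -
        (DD (sgl A r) * sgl B s + sgl A r * DD (sgl B s))
      rw [sgl_mul_sgl, DD_sgl, DD_sgl, DD_sgl, sgl_mul_sgl, sgl_mul_sgl]
      obtain ⟨d, hd⟩ : ∃ d : ℕ, A.val + B.val = (A + B).val + 2 ^ k * d := by
        rw [ZMod.val_add]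
        exact ⟨(A.val + B.val) / 2 ^ k, (Nat.mod_add_div _ _).symm⟩
      refine ⟨sgl (A + B) (-((d : R) * (r * s))), ?_⟩
      have e : ((2 : GR R (2 ^ k)) ^ k) = ((2 ^ k : ℕ) : GR R (2 ^ k)) := by
        push_cast
        rfl
      rw [e, cast_mul_sgl]
      have h1 : ((A.val : R) + (B.val : R)) = ((A + B).val : R) + 2 ^ k * d := by
        have := congrArg (Nat.cast (R := R)) hd
        push_cast at this
        exact this
      have h2 : (sgl (A + B) (((A + B).val : R) * (r * s)) : GR R (2 ^ k)) =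
          sgl (A + B) ((A.val : R) * r * s) + sgl (A + B) (r * ((B.val : R) * s)) +
          sgl (A + B) (((2 ^ k : ℕ) : R) * -((d : R) * (r * s))) := by
        rw [← AddMonoidAlgebra.single_add, ← AddMonoidAlgebra.single_add]
        congr 1
        push_cast
        linear_combination -(r * s) * h1
      rw [h2]
      ring

lemma DD_one : DD (1 : GR R (2 ^ k)) = 0 := by
  have h1 : (1 : GR R (2 ^ k)) = sgl 0 1 := rfl
  rw [h1, DD_sgl, ZMod.val_zero, Nat.cast_zero, zero_mul]
  exact AddMonoidAlgebra.single_zero _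

lemma leib_pow (h : GR R (2 ^ k)) (i : ℕ) :
    (2 ^ k : GR R (2 ^ k)) ∣ DD (h ^ (i + 1)) - ((i : GR R (2 ^ k)) + 1) * h ^ i * DD h := by
  induction i with
  | zero => simp
  | succ i ih =>
    have h1 := leib (h ^ (i + 1)) h
    have h2 := dvd_add h1 (dvd_mul_of_dvd_left ih h)
    have e : DD (h ^ (i + 1 + 1)) - (((i + 1 : ℕ) : GR R (2 ^ k)) + 1) * h ^ (i + 1) * DD h =
        DD (h ^ (i + 1) * h) - (DD (h ^ (i + 1)) * h + h ^ (i + 1) * DD h) +
        (DD (h ^ (i + 1)) - ((i : GR R (2 ^ k)) + 1) * h ^ i * DD h) * h := by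
      rw [pow_succ h (i + 1)]
      push_cast
      ring
    rw [e]
    exact h2

lemma two_free (hR : ∀ r : R, 2 * r = 0 → r = 0) {f : GR R (2 ^ k)} (hf : 2 * f = 0) : f = 0 := by
  rw [← AddMonoidAlgebra.coeff_eq_zero]
  ext A
  refine hR _ ?_
  have h1 : (2 * f).coeff A = 2 * f.coeff A := by
    rw [two_mul, AddMonoidAlgebra.coeff_add, Finsupp.add_apply, two_mul]
  rw [← h1, hf]
  rfl

end

theorem t : S_LOGP := by
  intro R _ hR c hc k hk H C g hH n hn
  obtain ⟨j, rfl⟩ : ∃ j, k = j + 1 := ⟨k - 1, by omega⟩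
  simp only [Nat.add_sub_cancel]
  have h1 : DD H = (1 + 2 * H) * C - 2 ^ j * g := by
    have h2 : 2 * (DD H - ((1 + 2 * H) * C - 2 ^ j * g)) = 0 := by
      linear_combination -hH
    exact sub_eq_zero.1 (two_free hR h2)
  -- the derivative of the truncated logarithm
  have hcc : ∀ i : ℕ, (sgl 0 (c i) : GR R (2 ^ (j + 1))) * ((i : GR R (2 ^ (j + 1))) + 1) =
      (-2) ^ i := by
    intro i
    have e1 : ((i : GR R (2 ^ (j + 1))) + 1) = ((i + 1 : ℕ) : GR R (2 ^ (j + 1))) := by
      push_cast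
      rfl
    have e2 : ((-2 : GR R (2 ^ (j + 1))) ^ i) = sgl 0 ((-2 : R) ^ i) := by
      have : ((-2 : GR R (2 ^ (j + 1)))) = algebraMap R (GR R (2 ^ (j + 1))) (-2) := by
        rw [map_neg, map_ofNat]
      rw [this, ← map_pow]
      rfl
    rw [e1, mul_comm, cast_mul_sgl, e2, ← hc i]
    push_cast
    rfl
  have h3 : (2 ^ (j + 1) : GR R (2 ^ (j + 1))) ∣
      DD (PN c n H) - (∑ i ∈ range n, (-2 * H) ^ i) * DD H := by
    have e1 : DD (PN c n H) - (∑ i ∈ range n, (-2 * H) ^ i) * DD H =
        ∑ i ∈ range n, sgl 0 (c i) *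
          (DD (H ^ (i + 1)) - ((i : GR R (2 ^ (j + 1))) + 1) * H ^ i * DD H) := by
      unfold PN
      rw [DD_sum, Finset.sum_mul, ← Finset.sum_sub_distrib]
      refine Finset.sum_congr rfl fun i _ => ?_
      rw [DD_const, mul_pow]
      linear_combination (H ^ i * DD H) * hcc i
    rw [e1]
    exact Finset.dvd_sum fun i _ => dvd_mul_of_dvd_right (leib_pow H i) _
  have h4 : (∑ i ∈ range n, (-2 * H) ^ i) * (1 + 2 * H) = 1 - (-2 * H) ^ n := by
    have := mul_neg_geom_sum (-2 * H) n
    rw [← this]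
    ring
  obtain ⟨d, hd⟩ := h3
  obtain ⟨m, rfl⟩ : ∃ m, n = j + m := ⟨n - j, by omega⟩
  refine ⟨2 * d - 2 ^ m * (-H) ^ (j + m) * C - (∑ i ∈ range (j + m), (-2 * H) ^ i) * g, ?_⟩
  have h5 : DD (PN c (j + m) H) = (∑ i ∈ range (j + m), (-2 * H) ^ i) * DD H +
      2 ^ (j + 1) * d := by
    rw [← hd]
    ring
  have h6 : (-2 * H) ^ (j + m) = 2 ^ j * (2 ^ m * (-H) ^ (j + m)) := by
    have : (-2 * H) = 2 * (-H) := by ring
    rw [this, mul_pow, pow_add (2 : GR R (2 ^ (j + 1))) j m]
    ring
  rw [h5, h1]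
  linear_combination C * h4 - C * h6

end Pool.Agent.Y657.UE
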